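import Pool.Agent.Lib.lead.CXGraphRed

namespace Pool.Agent.H.MP_85a811_lc
open Pool.Agent.Lib.CX Finset Classical

variable {V : Type} [Fintype V]

/-- the number of arcs leaving `v` -/
noncomputable def outdeg (A : V → V → Prop) (v : V) : ℕ := (univ.filter fun w => A v w).card

/-- firing `v`: it loses its out-degree, every out-neighbour gains one chip -/
noncomputable def fire (A : V → V → Prop) (x : V → ℤ) (v : V) : V → ℤ :=
  fun w => x w - (if w = v then (outdeg A v : ℤ) else 0) + (if A v w then 1 else 0)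

/-- there is no infinite legal game starting from `x` -/
def Terminating (A : V → V → Prop) (x : V → ℤ) : Prop :=
  ¬ ∃ (s : ℕ → V → ℤ) (f : ℕ → V), s 0 = x ∧ ∀ t, s (t + 1) = fire A (s t) (f t) ∧ 0 ≤ s (t + 1) (f t)

noncomputable def Y (A : V → V → Prop) (x : V → ℤ) (u : V → ℕ) (w : V) : ℤ :=
  x w - outdeg A w * u w + ∑ v, if A v w then (u v : ℤ) else 0

theorem Y_zero (A : V → V → Prop) (x : V → ℤ) : Y A x 0 = x := by
  funext w; simp [Y]

theorem Y_fire (A : V → V → Prop) (x : V → ℤ) (u : V → ℕ) (v : V) :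
    Y A x (u + Pi.single v 1) = fire A (Y A x u) v := by
  funext w
  have : (∑ z, if A z w then (((u + Pi.single v 1 : V → ℕ) z : ℕ) : ℤ) else 0) =
      (∑ z, if A z w then (u z : ℤ) else 0) + if A v w then 1 else 0 := by
    have h : (if A v w then (1 : ℤ) else 0) = ∑ z, if z = v then (if A z w then 1 else 0) else 0 := by simp
    rw [h, ← sum_add_distrib]
    refine sum_congr rfl fun z _ => ?_
    by_cases h1 : z = v <;> by_cases h2 : A z w <;> simp [h1, h2] <;> simp_all
  simp only [Y, fire, this]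
  by_cases h : w = v
  · subst h; simp; ring
  · simp [h]; ring

theorem term_of (A : V → V → Prop) (hA : ∀ v, ¬ A v v) (x : V → ℤ) (u : V → ℕ) (hu : ∀ w, Y A x u w < outdeg A w) :
    Terminating A x := by
  rintro ⟨s, f, h0, hs⟩
  have key : ∀ t, ∃ c : V → ℕ, c ≤ u ∧ ∑ v, c v = t ∧ s t = Y A x c := fun t => by
    induction t with
    | zero => exact ⟨0, fun _ => Nat.zero_le _, by simp, by rw [Y_zero, h0]⟩
    | succ t ih =>
      obtain ⟨c, h1, h2, h3⟩ := ih
      refine ⟨c + Pi.single (f t) 1, fun v => ?_, by simp [sum_add_distrib, h2], by rw [Y_fire, ← h3, (hs t).1]⟩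
      by_cases hv : v = f t
      · subst hv
        have h4 := (hs t).2
        rw [(hs t).1, h3] at h4
        simp only [fire, if_true, hA, if_false, Y] at h4
        have h5 := hu (f t)
        simp only [Y] at h5
        have h6 : (∑ z, if A z (f t) then (c z : ℤ) else 0) ≤ ∑ z, if A z (f t) then (u z : ℤ) else 0 :=
          sum_le_sum fun z _ => by have := h1 z; split_ifs <;> simp_all
        have h7 : c (f t) ≤ u (f t) := h1 (f t)
        simp only [Pi.add_apply, Pi.single_eq_same]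
        by_contra h8
        have : c (f t) = u (f t) := by omega
        rw [this] at h4
        linarith
      · simpa [Pi.single_apply, hv] using h1 v
  obtain ⟨c, h1, h2, -⟩ := key (∑ v, u v + 1)
  have := sum_le_sum fun v (_ : v ∈ univ) => h1 v
  omega

theorem of_term (A : V → V → Prop) (x : V → ℤ) (hx : ∀ v, 0 ≤ x v) (h : Terminating A x) :
    ∃ u : V → ℕ, ∀ w, 0 ≤ Y A x u w ∧ Y A x u w < outdeg A w := by
  by_contra hn
  push Not at hn
  have step : ∀ u : {u : V → ℕ // ∀ w, 0 ≤ Y A x u w}, ∃ p : V × {u : V → ℕ // ∀ w, 0 ≤ Y A x u w},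
      Y A x p.2.1 = fire A (Y A x u.1) p.1 := fun u => by
    obtain ⟨w, hw⟩ := hn u.1
    refine ⟨⟨w, u.1 + Pi.single w 1, fun z => ?_⟩, Y_fire ..⟩
    rw [Y_fire]
    have h1 := hw (u.2 w)
    have h2 := u.2 z
    simp only [fire]
    split_ifs with h3 <;> (try subst h3) <;> linarith
  choose g hg using step
  let a : ℕ → {u : V → ℕ // ∀ w, 0 ≤ Y A x u w} := fun t => (fun u => (g u).2)^[t] ⟨0, by rwa [Y_zero]⟩
  refine h ⟨fun t => Y A x (a t).1, fun t => (g (a t)).1, Y_zero A x, fun t => ⟨?_, (a (t + 1)).2 _⟩⟩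
  simp only [a, Function.iterate_succ_apply']
  exact hg _

variable {W : Type} [DecidableEq W]

/-- the criterion on named vertices -/
theorem mk_iff (vs : List W) (es : List (W × W)) (hl : ∀ v, (v, v) ∉ es) (X : W → ℤ) (hX : ∀ v, 0 ≤ X v)
    (O I : W → Finset W) (hO : ∀ w z, z ∈ O w ↔ z ∈ vs ∧ (w, z) ∈ es) (hI : ∀ w z, z ∈ I w ↔ z ∈ vs ∧ (z, w) ∈ es) :
    Terminating (mkGr vs es).arc (fun i => X (mkGrEquiv vs es i).1) ↔ ∃ U : W → ℕ, ∀ w ∈ vs,
      0 ≤ X w - (O w).card * U w + ∑ v ∈ I w, (U v : ℤ) ∧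
      X w - (O w).card * U w + ∑ v ∈ I w, (U v : ℤ) < (O w).card := by
  have hA : ∀ v, ¬ (mkGr vs es).arc v v := fun v => by rw [mkGr_arc]; exact hl _
  have hs : ∀ g : W → ℤ, ∑ i, g (mkGrEquiv vs es i).1 = ∑ v ∈ vs.toFinset, g v := fun g => by
    let _ : Fintype {x | x ∈ vs} := Fintype.ofEquiv _ (mkGrEquiv vs es)
    rw [Equiv.sum_comp (mkGrEquiv vs es) fun y => g y.1]
    exact (sum_subtype _ (by simp) g).symm
  have hO' : ∀ w, O w = vs.toFinset.filter fun z => (w, z) ∈ es := fun w => by ext; simp [hO]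
  have hI' : ∀ w, I w = vs.toFinset.filter fun z => (z, w) ∈ es := fun w => by ext; simp [hI]
  have hd : ∀ i, (outdeg (mkGr vs es).arc i : ℤ) = (O (mkGrEquiv vs es i).1).card := fun i => by
    simp only [outdeg, hO', card_filter, mkGr_arc]
    push_cast
    exact hs fun z => if ((mkGrEquiv vs es i).1, z) ∈ es then 1 else 0
  have hY : ∀ (U : W → ℕ) i, Y (mkGr vs es).arc (fun i => X (mkGrEquiv vs es i).1) (fun i => U (mkGrEquiv vs es i).1) i =
      X (mkGrEquiv vs es i).1 - (O (mkGrEquiv vs es i).1).card *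
        U (mkGrEquiv vs es i).1 + ∑ v ∈ I (mkGrEquiv vs es i).1, (U v : ℤ) :=
    fun U i => by
      simp only [Y, hd, hI', mkGr_arc, sum_filter]
      congr 1
      exact hs fun z => if (z, (mkGrEquiv vs es i).1) ∈ es then (U z : ℤ) else 0
  constructor
  · intro h
    obtain ⟨u, hu⟩ := of_term _ _ (fun i => hX _) h
    let U : W → ℕ := fun w => if h : w ∈ vs then u ((mkGrEquiv vs es).symm ⟨w, h⟩) else 0
    have hU : u = fun i => U (mkGrEquiv vs es i).1 := funext fun i => by
      have : (mkGrEquiv vs es i).1 ∈ vs := (mkGrEquiv vs es i).2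
      simp [U, this]
    refine ⟨U, fun w hw => ?_⟩
    have := hu ((mkGrEquiv vs es).symm ⟨w, hw⟩)
    rw [hU, hY, hd] at this
    simpa using this
  · rintro ⟨U, hU⟩
    refine term_of _ hA _ (fun i => U (mkGrEquiv vs es i).1) fun i => ?_
    rw [hY, hd]
    exact (hU _ (mkGrEquiv vs es i).2).2

end Pool.Agent.H.MP_85a811_lc
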