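import Pool.Agent.H.MP_85a811_lc.A

namespace Pool.Agent.H.MP_85a811_lc
open Pool.Agent.Lib.CX Finset

variable {W : Type} [DecidableEq W]

def sV (vs : List W) (out : W → List W) : List (W × ℕ) :=
  vs.flatMap fun v => (List.range ((out v).length + 1)).map fun k => (v, k)

def sE (vs : List W) (out : W → List W) : List ((W × ℕ) × (W × ℕ)) :=
  vs.flatMap fun v => (List.range (out v).length).flatMap fun k =>
    [((v, 0), (v, k + 1)), ((v, k + 1), ((out v).getD k v, 0))]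

omit [DecidableEq W] in
theorem mem_sV (vs : List W) (out : W → List W) (p : W × ℕ) : p ∈ sV vs out ↔ p.1 ∈ vs ∧ p.2 ≤ (out p.1).length := by
  obtain ⟨v, k⟩ := p
  simp only [sV, List.mem_flatMap, List.mem_map, List.mem_range, Prod.mk.injEq]
  constructor
  · rintro ⟨a, h, b, h1, rfl, rfl⟩; exact ⟨h, by omega⟩
  · exact fun h => ⟨v, h.1, k, by omega, rfl, rfl⟩

omit [DecidableEq W] in
theorem mem_sE (vs : List W) (out : W → List W) (p q : W × ℕ) : (p, q) ∈ sE vs out ↔ p.1 ∈ vs ∧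
    ∃ k < (out p.1).length, (p.2 = 0 ∧ q = (p.1, k + 1)) ∨ (p.2 = k + 1 ∧ q = ((out p.1).getD k p.1, 0)) := by
  obtain ⟨v, k⟩ := p
  simp only [sE, List.mem_flatMap, List.mem_range, List.mem_cons, Prod.mk.injEq, List.not_mem_nil, or_false]
  constructor
  · rintro ⟨a, h, b, h1, ⟨⟨rfl, rfl⟩, rfl⟩ | ⟨⟨rfl, rfl⟩, rfl⟩⟩
    · exact ⟨h, b, h1, .inl ⟨rfl, rfl⟩⟩
    · exact ⟨h, b, h1, .inr ⟨rfl, rfl⟩⟩
  · rintro ⟨h, b, h1, ⟨rfl, rfl⟩ | ⟨rfl, rfl⟩⟩
    · exact ⟨v, h, b, h1, .inl ⟨⟨rfl, rfl⟩, rfl⟩⟩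
    · exact ⟨v, h, b, h1, .inr ⟨⟨rfl, rfl⟩, rfl⟩⟩

omit [DecidableEq W] in
theorem sE_loop (vs : List W) (out : W → List W) (p : W × ℕ) : (p, p) ∉ sE vs out := by
  rw [mem_sE]
  rintro ⟨-, k, -, ⟨h1, h2⟩ | ⟨h1, h2⟩⟩ <;> have := congrArg Prod.snd h2 <;> simp at this <;> omega

theorem count_eq (l : List W) (d w : W) (c : ℤ) :
    ∑ k ∈ range l.length, (if l.getD k d = w then c else 0) = l.count w * c := by
  induction l with
  | nil => simp
  | cons a l ih =>
    rw [List.length_cons, sum_range_succ']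
    simp only [List.getD_cons_succ, ih, List.getD_cons_zero, List.count_cons, beq_iff_eq]
    split_ifs <;> simp [add_mul]

def sX (x : W → ℤ) (p : W × ℕ) : ℤ := if p.2 = 0 then x p.1 else 0

def YM (vs : List W) (out : W → List W) (x : W → ℤ) (U : W → ℕ) (w : W) : ℤ :=
  x w - (out w).length * U w + ∑ v ∈ vs.toFinset, (out v).count w * (U v : ℤ)

theorem sub_iff (vs : List W) (out : W → List W) (hc : ∀ v ∈ vs, ∀ w ∈ out v, w ∈ vs) (x : W → ℤ) (hx : ∀ v, 0 ≤ x v) :
    Terminating (mkGr (sV vs out) (sE vs out)).arc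
      (fun i => sX x (mkGrEquiv _ _ i).1) ↔
    ∃ U : W → ℕ, ∀ w ∈ vs, 0 ≤ YM vs out x U w ∧ YM vs out x U w < (out w).length := by
  rw [mk_iff _ _ (sE_loop vs out) (sX x) (fun p => by unfold sX; split_ifs; exacts [hx _, le_rfl])
    (fun w => (sV vs out).toFinset.filter fun z => (w, z) ∈ sE vs out)
    (fun w => (sV vs out).toFinset.filter fun z => (z, w) ∈ sE vs out) (by simp) (by simp)]
  have hg : ∀ v ∈ vs, ∀ k < (out v).length, (out v).getD k v ∈ vs := fun v hv k hk => by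
    rw [List.getD_eq_getElem _ _ hk]; exact hc v hv _ (List.getElem_mem _)
  have d0 : ∀ v ∈ vs, ((sV vs out).toFinset.filter fun z => ((v, 0), z) ∈ sE vs out).card = (out v).length :=
    fun v hv => by
      have : ((sV vs out).toFinset.filter fun z => ((v, 0), z) ∈ sE vs out) =
          (range (out v).length).image fun k => (v, k + 1) := by
        ext ⟨a, b⟩
        simp only [mem_filter, List.mem_toFinset, mem_sV, mem_sE, mem_image, mem_range, Prod.mk.injEq]
        constructor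
        · rintro ⟨-, -, k, hk, ⟨-, rfl, rfl⟩ | ⟨h, -⟩⟩
          · exact ⟨k, hk, rfl, rfl⟩
          · omega
        · rintro ⟨k, hk, rfl, rfl⟩
          exact ⟨⟨hv, hk⟩, hv, k, hk, .inl ⟨trivial, rfl, rfl⟩⟩
      rw [this, card_image_of_injective _ fun a b h => by simpa using h, card_range]
  have d1 : ∀ v ∈ vs, ∀ k < (out v).length,
      ((sV vs out).toFinset.filter fun z => ((v, k + 1), z) ∈ sE vs out).card = 1 := fun v hv k hk => by
    rw [card_eq_one]
    refine ⟨((out v).getD k v, 0), ?_⟩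
    ext ⟨a, b⟩
    simp only [mem_filter, List.mem_toFinset, mem_sV, mem_sE, mem_singleton, Prod.mk.injEq]
    constructor
    · rintro ⟨-, -, j, -, ⟨h, -⟩ | ⟨h, rfl, rfl⟩⟩
      · omega
      · obtain rfl : k = j := by omega
        exact ⟨rfl, rfl⟩
    · rintro ⟨rfl, rfl⟩
      exact ⟨⟨hg v hv k hk, Nat.zero_le _⟩, hv, k, hk, .inr ⟨rfl, rfl, rfl⟩⟩
  have i1 : ∀ v ∈ vs, ∀ k < (out v).length,
      ((sV vs out).toFinset.filter fun z => (z, (v, k + 1)) ∈ sE vs out) = {(v, 0)} := fun v hv k hk => by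
    ext ⟨a, b⟩
    simp only [mem_filter, List.mem_toFinset, mem_sV, mem_sE, mem_singleton, Prod.mk.injEq]
    constructor
    · rintro ⟨-, -, j, -, ⟨h, rfl, -⟩ | ⟨-, -, h⟩⟩
      · exact ⟨rfl, h⟩
      · omega
    · rintro ⟨rfl, rfl⟩
      exact ⟨⟨hv, Nat.zero_le _⟩, hv, k, hk, .inl ⟨rfl, rfl, rfl⟩⟩
  have i0 : ∀ (w : W) (U : W × ℕ → ℕ) (u : W → ℕ), (∀ v ∈ vs, ∀ k < (out v).length, U (v, k + 1) = u v) →
      ∑ z ∈ (sV vs out).toFinset.filter fun z => (z, (w, 0)) ∈ sE vs out, (U z : ℤ) =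
        ∑ v ∈ vs.toFinset, (out v).count w * (u v : ℤ) := fun w U u hu => by
    have : ((sV vs out).toFinset.filter fun z => (z, (w, 0)) ∈ sE vs out) =
        vs.toFinset.biUnion fun v => ((range (out v).length).filter fun k => (out v).getD k v = w).image
          fun k => (v, k + 1) := by
      ext ⟨a, b⟩
      simp only [mem_filter, List.mem_toFinset, mem_sV, mem_sE, mem_image, mem_range, Prod.mk.injEq, mem_biUnion]
      constructor
      · rintro ⟨-, ha, k, hk, ⟨-, -, h⟩ | ⟨rfl, rfl, -⟩⟩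
        · omega
        · exact ⟨a, ha, k, ⟨hk, rfl⟩, rfl, rfl⟩
      · rintro ⟨v, hv, k, ⟨hk, rfl⟩, rfl, rfl⟩
        exact ⟨⟨hv, hk⟩, hv, k, hk, .inr ⟨rfl, rfl, trivial⟩⟩
    rw [this, sum_biUnion]
    · refine sum_congr rfl fun v hv => ?_
      rw [sum_image fun a _ b _ h => by simpa using h, sum_filter, ← count_eq _ v]
      refine sum_congr rfl fun k hk => ?_
      rw [hu v (List.mem_toFinset.1 hv) k (mem_range.1 hk)]
    · intro a _ b _ hab
      simp only [Function.onFun, disjoint_left, mem_image]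
      rintro _ ⟨k, -, rfl⟩ ⟨j, -, h⟩
      exact hab (congrArg Prod.fst h).symm
  constructor
  · rintro ⟨U, hU⟩
    refine ⟨fun v => U (v, 0), fun w hw => ?_⟩
    have := hU (w, 0) ((mem_sV ..).2 ⟨hw, Nat.zero_le _⟩)
    rw [d0 w hw, i0 w U fun v => U (v, 0)] at this
    · simpa [YM, sX] using this
    · intro v hv k hk
      have := hU (v, k + 1) ((mem_sV ..).2 ⟨hv, hk⟩)
      rw [d1 v hv k hk, i1 v hv k hk] at this
      simp [sX] at this
      omega
  · rintro ⟨U, hU⟩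
    refine ⟨fun p => U p.1, fun ⟨w, k⟩ hw => ?_⟩
    rw [mem_sV] at hw
    cases k with
    | zero =>
      rw [d0 w hw.1, i0 w _ U fun _ _ _ _ => rfl]
      simpa [YM, sX] using hU w hw.1
    | succ k =>
      rw [d1 w hw.1 k hw.2, i1 w hw.1 k hw.2]
      simp [sX]

/-- the number of chips is conserved -/
theorem conserve (vs : List W) (out : W → List W) (hc : ∀ v ∈ vs, ∀ w ∈ out v, w ∈ vs) (x : W → ℤ) (U : W → ℕ) :
    ∑ w ∈ vs.toFinset, YM vs out x U w = ∑ w ∈ vs.toFinset, x w := by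
  simp only [YM, sum_add_distrib, sum_sub_distrib]
  rw [sum_comm]
  have : ∑ v ∈ vs.toFinset, ∑ w ∈ vs.toFinset, ((out v).count w : ℤ) * U v =
      ∑ v ∈ vs.toFinset, ((out v).length : ℤ) * U v := sum_congr rfl fun v hv => by
    rw [← sum_mul]
    congr 1
    have := Multiset.sum_count_eq_card (s := vs.toFinset) (m := (out v : Multiset W))
      (by simpa using hc v (List.mem_toFinset.1 hv))
    simp only [Multiset.coe_count, Multiset.coe_card] at this
    exact_mod_cast this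
  rw [this]; ring

end Pool.Agent.H.MP_85a811_lc
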