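import Pool.Agent.H.MP_85a811_lc.B

namespace Pool.Agent.H.MP_85a811_lc
open Pool.Agent.Lib.CX Finset

def six (C : T3 ℕ) : List ℕ := [C.1, C.2.1, C.2.2, C.1 + 1, C.2.1 + 1, C.2.2 + 1]
def hh (m i : ℕ) : ℕ := (3 * m + 1) * (3 * m + 1 - i)
def cl (φ : List (T3 ℕ)) (j : ℕ) : T3 ℕ := φ.getD j (0, 0, 0)
def cArcs (φ : List (T3 ℕ)) (i : ℕ) : List (ℕ × ℕ) :=
  (List.range φ.length).flatMap fun j => (six (cl φ j)).map fun z => if z = i then (2, j) else (0, 0)
def out (φ : List (T3 ℕ)) (v : ℕ × ℕ) : List (ℕ × ℕ) :=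
  if v.1 = 0 then List.replicate (hh φ.length (v.2 + 1)) (0, v.2 + 1) ++
      List.replicate (hh φ.length (v.2 + 1)) (1, v.2 + 1) ++ [(0, 0), (0, 0)] ++ cArcs φ v.2
  else if v.1 = 1 then List.replicate (2 * hh φ.length v.2) (0, 0) else List.replicate 3 (0, 0)
def vs (m : ℕ) : List (ℕ × ℕ) :=
  (List.range (3 * m + 1)).map (fun i => (0, i)) ++ (List.range (3 * m)).map (fun i => (1, i + 1)) ++
    (List.range m).map fun j => (2, j)
def xx (m : ℕ) (v : ℕ × ℕ) : ℤ :=
  ((if v.1 = 0 then (if v.2 = 0 then 2 * hh m 0 - 1 + m else 0) else if v.1 = 1 then hh m v.2 else 1 : ℕ) : ℤ)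

theorem mem_vs (m : ℕ) (v : ℕ × ℕ) : v ∈ vs m ↔
    (v.1 = 0 ∧ v.2 ≤ 3 * m) ∨ (v.1 = 1 ∧ 1 ≤ v.2 ∧ v.2 ≤ 3 * m) ∨ (v.1 = 2 ∧ v.2 < m) := by
  obtain ⟨a, b⟩ := v
  simp only [vs, List.mem_append, List.mem_map, List.mem_range, Prod.mk.injEq]
  constructor
  · rintro ((⟨i, h, rfl, rfl⟩ | ⟨i, h, rfl, rfl⟩) | ⟨i, h, rfl, rfl⟩) <;> omega
  · rintro (⟨rfl, h⟩ | ⟨rfl, h⟩ | ⟨rfl, h⟩)
    · exact .inl (.inl ⟨b, by omega, rfl, rfl⟩)
    · exact .inl (.inr ⟨b - 1, by omega, rfl, by omega⟩)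
    · exact .inr ⟨b, h, rfl, rfl⟩

theorem sum_vs (m : ℕ) (g : ℕ × ℕ → ℤ) : ∑ v ∈ (vs m).toFinset, g v =
    ∑ i ∈ range (3 * m + 1), g (0, i) + ∑ i ∈ range (3 * m), g (1, i + 1) + ∑ j ∈ range m, g (2, j) := by
  have : (vs m).toFinset = ((range (3 * m + 1)).image (fun i => (0, i)) ∪ (range (3 * m)).image fun i => (1, i + 1)) ∪
      (range m).image fun j => (2, j) := by
    ext; simp [vs]
  rw [this, sum_union, sum_union, sum_image, sum_image, sum_image]
  any_goals (intro a _ b _ h; simpa using h)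
  all_goals simp [disjoint_left]
  omega

theorem mem_cArcs {φ : List (T3 ℕ)} {i : ℕ} {w : ℕ × ℕ} (h : w ∈ cArcs φ i) :
    w = (0, 0) ∨ (w.1 = 2 ∧ w.2 < φ.length) := by
  simp only [cArcs, List.mem_flatMap, List.mem_map, List.mem_range] at h
  obtain ⟨j, hj, z, -, rfl⟩ := h
  split_ifs <;> simp [hj]

theorem closed (φ : List (T3 ℕ)) : ∀ v ∈ vs φ.length, ∀ w ∈ out φ v, w ∈ vs φ.length := by
  intro v hv w hw
  rw [mem_vs] at hv ⊢
  unfold out at hw
  have : hh φ.length (v.2 + 1) ≠ 0 → v.2 + 1 ≤ 3 * φ.length := fun h => by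
    by_contra h'
    exact h (by unfold hh; rw [show 3 * φ.length + 1 - (v.2 + 1) = 0 by omega, mul_zero])
  split_ifs at hw
  · simp only [List.mem_append, List.mem_replicate, List.mem_cons, List.not_mem_nil, or_false, or_self] at hw
    rcases hw with ((⟨h, rfl⟩ | ⟨h, rfl⟩) | rfl) | h
    · simpa using this h
    · simpa using this h
    · simp
    · rcases mem_cArcs h with rfl | h
      · simp
      · exact .inr (.inr h)
  all_goals simp only [List.mem_replicate] at hw; simp [hw.2]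

theorem hh_succ (m i : ℕ) (h : i ≤ 3 * m) : hh m i = hh m (i + 1) + (3 * m + 1) := by
  unfold hh; rw [show 3 * m + 1 - i = 3 * m + 1 - (i + 1) + 1 by omega]; ring

theorem len0 (φ : List (T3 ℕ)) (i : ℕ) (h : i ≤ 3 * φ.length) : (out φ (0, i)).length = 2 * hh φ.length i := by
  have : (cArcs φ i).length = 6 * φ.length := by
    simp [cArcs, List.length_flatMap, six, mul_comm]
  simp [out, this, hh_succ _ i h]; ring

theorem cnt2 [BEq (ℕ × ℕ)] [LawfulBEq (ℕ × ℕ)] (φ : List (T3 ℕ)) (i j : ℕ) (h : j < φ.length) :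
    (cArcs φ i).count (2, j) = (six (cl φ j)).count i := by
  have : ∀ k, ((six (cl φ k)).map fun z => if z = i then (2, k) else (0, 0)).count (2, j) =
      if k = j then (six (cl φ j)).count i else 0 := fun k => by
    simp only [List.count_eq_countP, List.countP_map]
    split_ifs with h
    · subst h
      refine List.countP_congr fun z _ => ?_
      by_cases h : z = i <;> simp [h]
    · refine List.countP_eq_zero.2 fun z _ => ?_
      by_cases h' : z = i <;> simp [h', h]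
  simp only [cArcs, List.count_flatMap, Function.comp_def, this]
  change ∑ k ∈ range φ.length, _ = _
  simp [h]

theorem cntc [BEq (ℕ × ℕ)] [LawfulBEq (ℕ × ℕ)] (φ : List (T3 ℕ)) (i : ℕ) (w : ℕ × ℕ) (h : w ≠ (0, 0)) (h2 : w.1 ≠ 2) : (cArcs φ i).count w = 0 :=
  List.count_eq_zero.2 fun h' => by rcases mem_cArcs h' with h' | h' <;> tauto

section
variable (φ : List (T3 ℕ)) (U : ℕ × ℕ → ℕ)

theorem YL (i : ℕ) (h : i < 3 * φ.length) : YM (vs φ.length) (out φ) (xx φ.length) U (0, i + 1) =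
    hh φ.length (i + 1) * ((U (0, i) : ℤ) - 2 * U (0, i + 1)) := by
  rw [YM, sum_vs, len0 φ _ h, sum_eq_single_of_mem i (by simp; omega)]
  · simp [out, xx, List.count_replicate, cntc]; ring
  · intro b _ hb
    simp [out, List.count_replicate, cntc, hb]

theorem YT (i : ℕ) (h : i < 3 * φ.length) : YM (vs φ.length) (out φ) (xx φ.length) U (1, i + 1) =
    hh φ.length (i + 1) * (1 + (U (0, i) : ℤ) - 2 * U (1, i + 1)) := by
  rw [YM, sum_vs, sum_eq_single_of_mem i (by simp; omega)]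
  · simp [out, xx, List.count_replicate, cntc]; ring
  · intro b _ hb
    simp [out, List.count_replicate, cntc, hb]

theorem YP (j : ℕ) (h : j < φ.length) (hb : ∀ z ∈ six (cl φ j), z ≤ 3 * φ.length) :
    YM (vs φ.length) (out φ) (xx φ.length) U (2, j) =
    1 - 3 * (U (2, j) : ℤ) + ((six (cl φ j)).map fun z => (U (0, z) : ℤ)).sum := by
  rw [YM, sum_vs, sum_list_map_count]
  have : ∑ z ∈ (six (cl φ j)).toFinset, (six (cl φ j)).count z • (U (0, z) : ℤ) =
      ∑ z ∈ range (3 * φ.length + 1), ((six (cl φ j)).count z : ℤ) * (U (0, z) : ℤ) := by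
    simp only [nsmul_eq_mul]
    refine sum_subset (fun z hz => ?_) fun z _ hz => ?_
    · have := hb z (List.mem_toFinset.1 hz); simp; omega
    · rw [List.count_eq_zero.2 (by simpa using hz)]; simp
  rw [this]
  simp [out, xx, List.count_replicate, cnt2, h]

theorem Yc (h : ∀ i < 3 * φ.length, YM (vs φ.length) (out φ) (xx φ.length) U (0, i + 1) +
      YM (vs φ.length) (out φ) (xx φ.length) U (1, i + 1) = hh φ.length (i + 1)) :
    YM (vs φ.length) (out φ) (xx φ.length) U (0, 0) = 2 * hh φ.length 0 - 1 +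
      ∑ j ∈ range φ.length, (2 - YM (vs φ.length) (out φ) (xx φ.length) U (2, j)) := by
  have := conserve _ _ (closed φ) (xx φ.length) U
  rw [sum_vs, sum_vs, sum_range_succ', sum_range_succ'] at this
  have h2 := sum_congr rfl fun i (hi : i ∈ range (3 * φ.length)) => h i (mem_range.1 hi)
  rw [sum_add_distrib] at h2
  have h3 : 1 ≤ 2 * hh φ.length 0 := by rw [hh_succ _ 0 (Nat.zero_le _)]; omega
  simp [xx, h3] at this
  simp
  linarith
end

theorem hh_pos (m i : ℕ) (h : i < 3 * m) : (0 : ℤ) < hh m (i + 1) := by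
  rw [hh_succ m _ h]; push_cast; positivity

theorem main (φ : List (T3 ℕ)) (hφ : ∀ C ∈ φ, ∀ x ∈ C.vars, x < 3 * φ.length) :
    SatR one3 φ ↔ ∃ U : ℕ × ℕ → ℕ, ∀ w ∈ vs φ.length, 0 ≤ YM (vs φ.length) (out φ) (xx φ.length) U w ∧
      YM (vs φ.length) (out φ) (xx φ.length) U w < (out φ w).length := by
  have hcl : ∀ j < φ.length, cl φ j ∈ φ := fun j hj => by
    rw [cl, List.getD_eq_getElem _ _ hj]; exact List.getElem_mem _
  have hb : ∀ j < φ.length, ∀ z ∈ six (cl φ j), z ≤ 3 * φ.length := fun j hj => by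
    have := hφ _ (hcl j hj)
    simp [T3.vars, six] at this ⊢
    omega
  have h3 : (1 : ℤ) ≤ hh φ.length 0 := by rw [hh_succ _ 0 (Nat.zero_le _)]; push_cast; omega
  constructor
  · rintro ⟨v, hv⟩
    let g : ℕ → ℕ := fun k => Nat.rec 0 (fun k a => 2 * a + (v (3 * φ.length - 1 - k)).toNat) k
    let u : ℕ → ℕ := fun i => g (3 * φ.length - i)
    have hu : ∀ i < 3 * φ.length, u i = 2 * u (i + 1) + (v i).toNat := fun i hi => by
      simp only [u]
      rw [show 3 * φ.length - i = (3 * φ.length - (i + 1)) + 1 by omega]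
      simp only [g]
      rw [show 3 * φ.length - 1 - (3 * φ.length - (i + 1)) = i by omega]
    clear_value u
    let U : ℕ × ℕ → ℕ := fun p => if p.1 = 0 then u p.2 else if p.1 = 1 then (1 + u (p.2 - 1)) / 2 else
      ((six (cl φ p.2)).map u).sum / 3
    have hL : ∀ i < 3 * φ.length, YM (vs φ.length) (out φ) (xx φ.length) U (0, i + 1) =
        hh φ.length (i + 1) * ((v i).toNat : ℤ) := fun i hi => by
      rw [YL φ U i hi]; congr 1; have := hu i hi; simp [U]; omega
    have hT : ∀ i < 3 * φ.length, YM (vs φ.length) (out φ) (xx φ.length) U (1, i + 1) =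
        hh φ.length (i + 1) * (1 - ((v i).toNat : ℤ)) := fun i hi => by
      rw [YT φ U i hi]; congr 1; have := hu i hi; have := (v i).toNat_le; simp [U]; omega
    have hP : ∀ j < φ.length, YM (vs φ.length) (out φ) (xx φ.length) U (2, j) = 2 := fun j hj => by
      rw [YP φ U j hj (hb j hj)]
      have h1 := hφ _ (hcl j hj)
      have h2 := hv _ (hcl j hj)
      simp only [T3.vars, List.forall_mem_cons] at h1
      have a1 := hu _ h1.1
      have a2 := hu _ h1.2.1
      have a3 := hu _ h1.2.2.1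
      simp only [one3, beq_iff_eq] at h2
      simp [U, six]
      omega
    refine ⟨U, fun ⟨a, b⟩ hw => ?_⟩
    rcases (mem_vs ..).1 hw with ⟨rfl, h⟩ | ⟨rfl, h⟩ | ⟨rfl, h⟩
    · rw [len0 φ b h]
      cases b with
      | zero =>
        rw [Yc φ U fun i hi => by rw [hL i hi, hT i hi]; ring,
          sum_eq_zero fun j hj => by rw [hP j (mem_range.1 hj), sub_self]]
        push_cast; omega
      | succ i =>
        have := hh_pos _ i h
        rw [hL i h]
        cases v i <;> simp <;> omega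
    · obtain ⟨i, rfl⟩ : ∃ i, b = i + 1 := ⟨b - 1, by simp at h; omega⟩
      have := hh_pos _ i h.2
      rw [hT i h.2]
      cases v i <;> simp [out] <;> omega
    · rw [hP b h]; simp [out]
  · rintro ⟨U, hU⟩
    have bit : ∀ {h a : ℤ}, 0 < h → 0 ≤ h * a → h * a < 2 * h → a = 0 ∨ a = 1 := fun {h a} h0 h1 h2 => by
      have : 0 ≤ a := by nlinarith
      have : a < 2 := by nlinarith
      omega
    have hL : ∀ i < 3 * φ.length, (U (0, i) : ℤ) - 2 * U (0, i + 1) = 0 ∨ (U (0, i) : ℤ) - 2 * U (0, i + 1) = 1 :=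
      fun i hi => by
        have := hU (0, i + 1) ((mem_vs ..).2 (.inl ⟨rfl, hi⟩))
        rw [YL φ U i hi, len0 φ _ hi] at this
        exact bit (hh_pos _ i hi) this.1 (by exact_mod_cast this.2)
    have hT : ∀ i < 3 * φ.length, 1 + (U (0, i) : ℤ) - 2 * U (1, i + 1) = 0 ∨
        1 + (U (0, i) : ℤ) - 2 * U (1, i + 1) = 1 := fun i hi => by
      have := hU (1, i + 1) ((mem_vs ..).2 (.inr (.inl ⟨rfl, by simp, hi⟩)))
      rw [YT φ U i hi] at this
      exact bit (hh_pos _ i hi) this.1 (by simpa [out] using this.2)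
    have hc := (hU (0, 0) ((mem_vs ..).2 (.inl ⟨rfl, Nat.zero_le _⟩))).2
    rw [len0 φ 0 (Nat.zero_le _), Yc φ U fun i hi => by
      rw [YL φ U i hi, YT φ U i hi, ← mul_add]
      have := hL i hi
      have := hT i hi
      rw [show (U (0, i) : ℤ) - 2 * U (0, i + 1) + (1 + (U (0, i) : ℤ) - 2 * U (1, i + 1)) = 1 by omega, mul_one]] at hc
    have h0 : ∀ j ∈ range φ.length, 0 ≤ 2 - YM (vs φ.length) (out φ) (xx φ.length) U (2, j) := fun j hj => by
      have := (hU (2, j) ((mem_vs ..).2 (.inr (.inr ⟨rfl, mem_range.1 hj⟩)))).2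
      simp [out] at this
      omega
    refine ⟨fun i => decide ((U (0, i) : ℤ) - 2 * U (0, i + 1) = 1), fun C hC => ?_⟩
    obtain ⟨j, hj, rfl⟩ := List.getElem_of_mem hC
    have e : φ[j] = cl φ j := by rw [cl, List.getD_eq_getElem _ _ hj]
    have h1 := single_le_sum h0 (mem_range.2 hj)
    have h2 := h0 j (mem_range.2 hj)
    rw [YP φ U j hj (hb j hj)] at h1 h2
    have h4 := hφ _ (hcl j hj)
    simp only [T3.vars, List.forall_mem_cons] at h4
    have a1 := hL _ h4.1
    have a2 := hL _ h4.2.1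
    have a3 := hL _ h4.2.2.1
    rw [e]
    simp only [six, List.map_cons, List.sum_cons, List.map_nil, List.sum_nil] at h1 h2
    push_cast at hc
    rcases a1 with a1 | a1 <;> rcases a2 with a2 | a2 <;> rcases a3 with a3 | a3 <;> simp [one3, a1, a2, a3] <;> omega

end Pool.Agent.H.MP_85a811_lc
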